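import Pool.Agent.Helper17.SA.St

/-!
Module CNT of project SA: induction over orbits and blocks.
-/

set_option autoImplicit false

namespace Pool.Agent.Helper88.SA

open Equiv Pool.Agent.Helper17.SA

section

variable {α : Type} [Fintype α] [DecidableEq α]

theorem cc_zero_of_lt (H : Subgroup (Perm α)) {p k : ℕ} (h : Fintype.card α < p * k) :
    cc H p k = 0 := by
  unfold cc
  rw [Nat.card_eq_zero]
  left
  constructor
  rintro ⟨y, _, hy⟩
  have h1 : y.cycleType.sum ≤ Fintype.card α := by
    rw [Perm.sum_cycleType]
    exact Finset.card_le_univ _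
  rw [hy, Multiset.sum_replicate, smul_eq_mul, mul_comm] at h1
  omega

theorem cc_at_zero (H : Subgroup (Perm α)) (p : ℕ) : cc H p 0 ≤ 1 := by
  unfold cc
  have : Subsingleton {y : Perm α // y ∈ H ∧ y.cycleType = Multiset.replicate 0 p} := by
    constructor
    rintro ⟨y, _, hy⟩ ⟨z, _, hz⟩
    rw [Multiset.replicate_zero, Perm.cycleType_eq_zero] at hy hz
    exact Subtype.ext (hy.trans hz.symm)
  exact Finite.card_le_one_iff_subsingleton.2 this

end

/-- The sum bound from bounds for the two parts. -/
theorem sum_bound {α β : Type} [Fintype α] [DecidableEq α] [Fintype β] [DecidableEq β]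
    {p : ℕ} {R : ℕ → ℕ → ℕ} (hp : p.Prime) (H1 : Subgroup (Perm α)) (H2 : Subgroup (Perm β))
    (h1 : ∀ k, k ≤ Fintype.card α / p → cc H1 p k ≤ R (Fintype.card α / p) k)
    (h2 : ∀ k, k ≤ Fintype.card β / p → cc H2 p k ≤ R (Fintype.card β / p) k) (k : ℕ) :
    ∑ i ∈ Finset.range (k + 1), cc H1 p i * cc H2 p (k - i) ≤
      ∑ i ∈ Finset.range (k + 1), (if i ≤ Fintype.card α / p ∧ k - i ≤ Fintype.card β / p then
        R (Fintype.card α / p) i * R (Fintype.card β / p) (k - i) else 0) := by
  apply Finset.sum_le_sum
  intro i _
  split_ifs with h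
  · exact Nat.mul_le_mul (h1 _ h.1) (h2 _ h.2)
  · rw [not_and_or] at h
    rcases h with h | h
    · have : cc H1 p i = 0 := by
        apply cc_zero_of_lt
        rw [not_le, Nat.div_lt_iff_lt_mul hp.pos] at h
        rwa [mul_comm]
      rw [this, zero_mul]
    · have : cc H2 p (k - i) = 0 := by
        apply cc_zero_of_lt
        rw [not_le, Nat.div_lt_iff_lt_mul hp.pos] at h
        rwa [mul_comm]
      rw [this, mul_zero]

theorem pCNT : StINT → StTRA → StOUT → StCNT := by
  intro hINT hTRA hOUT p N R hp hgood
  obtain ⟨g1, g2, g3, g4⟩ := hgood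
  suffices hmain : ∀ n : ℕ, ∀ (α : Type) [Fintype α] [DecidableEq α] (H : Subgroup (Perm α)),
      Fintype.card α = n → IsPGroup p H → Fintype.card α / p ≤ N →
      ∀ k, k ≤ Fintype.card α / p → cc H p k ≤ R (Fintype.card α / p) k from
    fun α _ _ H hH hN k hk => hmain _ α H rfl hH hN k hk
  intro n
  induction n using Nat.strong_induction_on with
  | _ n ih =>
  intro α _ _ H hn hH hN k hk
  -- division facts
  have hdiv : ∀ a b c : ℕ, a + b = c → a / p + b / p ≤ c / p := by
    intro a b c h
    subst h
    exact Nat.div_add_div_le_add_div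
  by_cases htr : ∀ a b : α, ∃ y ∈ H, y a = b
  swap
  · -- intransitive case
    push Not at htr
    obtain ⟨a, b, hab⟩ := htr
    classical
    let S : α → Prop := fun c => ∃ y ∈ H, y a = c
    have hSa : S a := ⟨1, H.one_mem, rfl⟩
    have hSb : ¬ S b := by
      rintro ⟨y, hy, h⟩
      exact hab y hy h
    obtain ⟨H1, H2, hp1, hp2, hle⟩ := hINT p α H S hp hH (by
      rintro y hy c ⟨z, hz, rfl⟩
      exact ⟨y * z, H.mul_mem hy hz, rfl⟩)
    have hsum : Fintype.card {c // S c} + Fintype.card {c // ¬ S c} = Fintype.card α := by
      rw [Fintype.card_subtype_compl]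
      have := Fintype.card_subtype_le S
      omega
    have hpos1 : 0 < Fintype.card {c // S c} := Fintype.card_pos_iff.2 ⟨⟨a, hSa⟩⟩
    have hpos2 : 0 < Fintype.card {c // ¬ S c} := Fintype.card_pos_iff.2 ⟨⟨b, hSb⟩⟩
    have hd := hdiv _ _ _ hsum
    refine (hle k).trans ((sum_bound (R := R) hp H1 H2 ?_ ?_ k).trans (g2 _ _ _ k hd hN))
    · exact ih _ (by omega) _ H1 rfl hp1 ((Nat.le_add_right _ _).trans (hd.trans hN))
    · exact ih _ (by omega) _ H2 rfl hp2 ((Nat.le_add_left _ _).trans (hd.trans hN))
  · by_cases hcard : Fintype.card α ≤ 1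
    · have h0 : Fintype.card α / p = 0 := Nat.div_eq_of_lt (by have := hp.two_le; omega)
      have hk0 : k = 0 := by omega
      rw [h0, hk0]
      exact (cc_at_zero H p).trans (g1 0 (Nat.zero_le _))
    · obtain ⟨j, K, S, hj, hαp, hKH, hKS, hScard, hfix, hblock, hrel⟩ :=
        hTRA p α H hp hH (by omega) htr
      classical
      have hKp : IsPGroup p K := hH.to_le hKH
      obtain ⟨H1, H2, hp1, hp2, hle⟩ := hINT p α K S hp hKp hKS
      have hsum : Fintype.card {c // S c} + Fintype.card {c // ¬ S c} = Fintype.card α := by
        rw [Fintype.card_subtype_compl]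
        have := Fintype.card_subtype_le S
        omega
      have hS : Fintype.card {c // S c} = p ^ (j - 1) := by
        rw [← Nat.card_eq_fintype_card]; exact hScard
      have hpj : p ^ j = p * p ^ (j - 1) := by
        rw [← pow_succ']; congr 1; omega
      have hpos : 0 < p ^ (j - 1) := pow_pos hp.pos _
      have hlt : p ^ (j - 1) < p ^ j := by
        rw [hpj]
        have := hp.two_le
        nlinarith
      have hnS : Fintype.card {c // ¬ S c} = p ^ j - p ^ (j - 1) := by omega
      have hnn : Fintype.card α / p = p ^ (j - 1) := by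
        rw [hαp, hpj, Nat.mul_div_cancel_left _ hp.pos]
      have hd := hdiv _ _ _ hsum
      have hb1 := ih _ (by omega) _ H1 rfl hp1 ((Nat.le_add_right _ _).trans (hd.trans hN))
      have hb2 := ih _ (by omega) _ H2 rfl hp2 ((Nat.le_add_left _ _).trans (hd.trans hN))
      have hK := (hle k).trans (sum_bound (R := R) hp H1 H2 hb1 hb2 k)
      have hKR := hK.trans (g2 _ _ _ k hd hN)
      by_cases hkn : k = p ^ (j - 1)
      · -- the top number
        have hout := hOUT p α H K j S hp hH hj hαp hKH hKS hScard hblock hrel
        have hsplit : cc H p k ≤ cc K p k +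
            Nat.card {y : Perm α // y ∈ H ∧ y ∉ K ∧ y ^ p = 1} := by
          unfold cc
          rw [← Nat.card_sum]
          refine Nat.card_le_card_of_injective (fun y : {y : Perm α // y ∈ H ∧ y.cycleType = Multiset.replicate k p} =>
            if h : y.1 ∈ K then Sum.inl ⟨y.1, h, y.2.2⟩ else Sum.inr ⟨y.1, y.2.1, h, ?_⟩) ?_
          · have : orderOf y.1 ∣ p := by
              rw [← Perm.lcm_cycleType, y.2.2]
              apply Multiset.lcm_dvd.2
              intro b hb
              rw [Multiset.eq_of_mem_replicate hb]
            exact orderOf_dvd_iff_pow_eq_one.1 this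
          · intro y z hyz
            simp only at hyz
            split_ifs at hyz with h1 h2 h2
            · have := Sum.inl.inj hyz
              rw [Subtype.mk.injEq] at this
              exact Subtype.ext this
            · have := Sum.inr.inj hyz
              rw [Subtype.mk.injEq] at this
              exact Subtype.ext this
        refine hsplit.trans ?_
        rw [hnn, hkn]
        rw [hkn] at hK
        by_cases hj1 : j = 1
        · subst hj1
          simp only [le_refl, tsub_self, pow_zero, pow_one] at *
          have e1 : Fintype.card {c // S c} / p = 0 := by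
            rw [hS]; exact Nat.div_eq_of_lt hp.one_lt
          have e2 : Fintype.card {c // ¬ S c} / p = 0 := by
            rw [hnS]; exact Nat.div_eq_of_lt (by have := hp.one_lt; omega)
          rw [e1, e2] at hK
          have hK0 : cc K p 1 ≤ 0 := by
            refine hK.trans (le_of_eq ?_)
            rw [Finset.sum_eq_zero]
            intro i hi
            have := Finset.mem_range.1 hi
            rw [if_neg]
            omega
          have h3 := g3 (by omega)
          omega
        · -- j at least two
          have hj2 : 2 ≤ j := by omega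
          have hpj1 : p ^ (j - 1) = p * p ^ (j - 2) := by
            rw [← pow_succ']; congr 1; omega
          have e1 : Fintype.card {c // S c} / p = p ^ (j - 2) := by
            rw [hS, hpj1, Nat.mul_div_cancel_left _ hp.pos]
          have e2 : Fintype.card {c // ¬ S c} / p = p ^ (j - 1) - p ^ (j - 2) := by
            rw [hnS, hpj]
            nth_rewrite 2 [hpj1]
            rw [← Nat.mul_sub, Nat.mul_div_cancel_left _ hp.pos]
          have hle2 : p ^ (j - 2) ≤ p ^ (j - 1) := Nat.pow_le_pow_right hp.pos (by omega)
          rw [e1, e2] at hK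
          have hK1 : cc K p (p ^ (j - 1)) ≤
              R (p ^ (j - 2)) (p ^ (j - 2)) * R (p ^ (j - 1) - p ^ (j - 2)) (p ^ (j - 1) - p ^ (j - 2)) := by
            refine hK.trans (le_of_eq ?_)
            rw [Finset.sum_eq_single (p ^ (j - 2))]
            · rw [if_pos ⟨le_refl _, le_refl _⟩]
            · intro i _ hi
              rw [if_neg]
              omega
            · intro h
              exact absurd (Finset.mem_range.2 (by omega)) h
          have h4 := g4 (j - 1) (by omega) (by omega)
          have e3 : j - 1 - 1 = j - 2 := by omega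
          rw [e3] at h4
          omega
      · -- all elements of this type are in K
        have heq : cc H p k ≤ cc K p k := by
          unfold cc
          refine Nat.card_le_card_of_injective (fun y : {y : Perm α // y ∈ H ∧ y.cycleType = Multiset.replicate k p} =>
            ⟨y.1, ?_, y.2.2⟩) ?_
          · by_contra hy
            apply hkn
            have hs : y.1.support = Finset.univ := by
              ext a
              simp only [Finset.mem_univ, iff_true]
              exact Perm.mem_support.2 (hfix y.1 y.2.1 hy a)
            have h1 := Perm.sum_cycleType y.1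
            rw [y.2.2, hs, Finset.card_univ, Multiset.sum_replicate, smul_eq_mul, hαp, hpj,
              mul_comm] at h1
            exact Nat.eq_of_mul_eq_mul_left hp.pos h1
          · intro y z hyz
            simp only [Subtype.mk.injEq] at hyz
            exact Subtype.ext hyz
        exact heq.trans hKR

end Pool.Agent.Helper88.SA
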