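import Pool.Agent.Helper17.SA.St

/-!
Module TRA of project SA: blocks of a transitive `p`-group.
-/

set_option autoImplicit false

namespace Pool.Agent.Helper88.SA

open Equiv Pool.Agent.Helper17.SA

theorem pTRA : StTRA := by
  intro p α _ _ H hp hH hα htr
  have : Fact p.Prime := ⟨hp⟩
  have hne : Nonempty α := Fintype.card_pos_iff.1 (by omega)
  obtain ⟨a0⟩ := hne
  obtain ⟨n, hn⟩ := IsPGroup.iff_card.1 hH
  have htrans : MulAction.IsPretransitive H α := ⟨fun a b => by
    obtain ⟨y, hy, h⟩ := htr a b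
    exact ⟨⟨y, hy⟩, h⟩⟩
  have hidx : (MulAction.stabilizer H a0).index = Fintype.card α := by
    rw [MulAction.index_stabilizer_of_transitive, Nat.card_eq_fintype_card]
  have hmul := (MulAction.stabilizer H a0).card_mul_index
  rw [hidx, hn] at hmul
  obtain ⟨j, hj, hcard⟩ := (Nat.dvd_prime_pow hp).1 (Dvd.intro_left _ hmul)
  have hj1 : 1 ≤ j := by
    by_contra h
    have : j = 0 := by omega
    rw [this, pow_zero] at hcard
    omega
  have hH0 : Nat.card (MulAction.stabilizer H a0) = p ^ (n - j) := by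
    rw [hcard] at hmul
    have h1 : p ^ n = p ^ (n - j) * p ^ j := by rw [← pow_add, Nat.sub_add_cancel hj]
    rw [h1] at hmul
    exact Nat.eq_of_mul_eq_mul_right (pow_pos hp.pos j) hmul
  obtain ⟨K', hK'card, hK'⟩ := Sylow.exists_subgroup_card_pow_prime_le p (n := n - j) (m := n - 1)
    (by rw [hn]; exact pow_dvd_pow p (by omega)) (MulAction.stabilizer H a0) hH0 (by omega)
  have hK'idx : K'.index = p := by
    have h1 := K'.card_mul_index
    rw [hK'card, hn] at h1
    have h2 : p ^ n = p ^ (n - 1) * p := by rw [← pow_succ]; congr 1; omega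
    rw [h2] at h1
    exact Nat.eq_of_mul_eq_mul_left (pow_pos hp.pos _) h1
  have hnorm : K'.Normal := Subgroup.normal_of_index_eq_minFac_card (by
    rw [hK'idx, hn, hp.pow_minFac (by omega)])
  have hmem : ∀ y (hy : y ∈ H), y ∈ K'.map H.subtype ↔ (⟨y, hy⟩ : H) ∈ K' := by
    intro y hy
    constructor
    · rintro ⟨z, hz, rfl⟩
      exact hz
    · intro h
      exact ⟨_, h, rfl⟩
  have hstab : ∀ y : H, y • a0 = a0 → y ∈ K' := fun y hy => hK' hy
  have hpow : ∀ y : H, y ∉ K' → ∀ i, 1 ≤ i → i < p → y ^ i ∉ K' := by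
    intro y hy i hi hip h
    apply hy
    rw [← QuotientGroup.eq_one_iff (N := K')] at h ⊢
    rw [QuotientGroup.mk_pow] at h
    have h1 : orderOf (y : H ⧸ K') ∣ i := orderOf_dvd_of_pow_eq_one h
    have h2 : orderOf (y : H ⧸ K') ∣ p := by
      have := orderOf_dvd_natCard (y : H ⧸ K')
      rwa [← Subgroup.index, hK'idx] at this
    have h3 : Nat.gcd i p = 1 := by
      have := (Nat.coprime_primes hp hp)
      exact (Nat.Coprime.symm ((Nat.Prime.coprime_iff_not_dvd hp).2 (fun hd => by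
        have := Nat.le_of_dvd (by omega) hd
        omega)))
    have h4 : orderOf (y : H ⧸ K') ∣ 1 := h3 ▸ Nat.dvd_gcd h1 h2
    exact orderOf_eq_one_iff.1 (Nat.dvd_one.1 h4)
  refine ⟨j, K'.map H.subtype, fun a => a ∈ MulAction.orbit K' a0, hj1, hcard, ?_, ?_, ?_, ?_, ?_, ?_⟩
  · rintro _ ⟨z, _, rfl⟩
    exact z.2
  · rintro _ ⟨z, hz, rfl⟩ a ⟨k, rfl⟩
    exact ⟨⟨z, hz⟩ * k, by simp only [mul_smul]; rfl⟩
  · have h1 : (MulAction.stabilizer K' a0).index = Nat.card (MulAction.orbit K' a0) := by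
      rw [MulAction.index_stabilizer]
      rfl
    have h2 : Nat.card (MulAction.stabilizer K' a0) = p ^ (n - j) := by
      have e : MulAction.stabilizer K' a0 = (MulAction.stabilizer H a0).subgroupOf K' := by
        ext k
        rfl
      rw [e, Nat.card_congr (Subgroup.subgroupOfEquivOfLe hK').toEquiv, hH0]
    have h3 := (MulAction.stabilizer K' a0).card_mul_index
    rw [h1, h2, hK'card] at h3
    have h4 : p ^ (n - 1) = p ^ (n - j) * p ^ (j - 1) := by
      rw [← pow_add]; congr 1; omega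
    rw [h4] at h3
    exact Nat.eq_of_mul_eq_mul_left (pow_pos hp.pos _) h3
  · intro y hy hyK a hya
    apply hyK
    rw [hmem y hy]
    obtain ⟨g, rfl⟩ := MulAction.exists_smul_eq H a0 a
    have h1 : g⁻¹ * ⟨y, hy⟩ * g ∈ K' := hstab _ (by
      rw [mul_smul, mul_smul]
      have : (⟨y, hy⟩ : H) • (g • a0) = g • a0 := hya
      rw [this, inv_smul_smul])
    have h2 := hnorm.conj_mem _ h1 g
    have h3 : g * (g⁻¹ * ⟨y, hy⟩ * g) * g⁻¹ = ⟨y, hy⟩ := by group
    rwa [h3] at h2
  · rintro y hy hyK i hi hip a ⟨k, rfl⟩ ⟨k', hk'⟩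
    rw [hmem y hy] at hyK
    have h0 := hpow _ hyK i hi hip
    apply h0
    have h1 : (k' : H)⁻¹ * (⟨y, hy⟩ : H) ^ i * (k : H) ∈ K' := hstab _ (by
      rw [mul_smul, mul_smul]
      have : (⟨y, hy⟩ : H) ^ i • ((k : H) • a0) = (k' : H) • a0 := hk'.symm
      rw [this, inv_smul_smul])
    have h2 : (⟨y, hy⟩ : H) ^ i = (k' : H) * ((k' : H)⁻¹ * (⟨y, hy⟩ : H) ^ i * (k : H)) * (k : H)⁻¹ := by
      group
    rw [h2]
    exact K'.mul_mem (K'.mul_mem k'.2 h1) (K'.inv_mem k.2)
  · unfold Subgroup.relIndex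
    have : (K'.map H.subtype).subgroupOf H = K' := by
      ext ⟨y, hy⟩
      rw [Subgroup.mem_subgroupOf]
      exact hmem y hy
    rw [this, hK'idx]

end Pool.Agent.Helper88.SA
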